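import Pool.Agent.W2helper77.CS.Stm

set_option autoImplicit false

/-! Project CS, piece PX: cells of distinct values. -/

namespace Pool.Agent.W2helper92.CS

open Pool.Agent.W2helper77.CS

lemma blk_cons (k : ℕ) (l : List ℕ) : blk (k :: l) = List.replicate k k ++ blk l := by
  simp [blk]

lemma sum_blk (f : ℕ → ℝ) (l : List ℕ) :
    ((blk l).map f).sum = (l.map fun k : ℕ => (k : ℝ) * f k).sum := by
  induction l with
  | nil => simp [blk]
  | cons k l ih =>
    rw [blk_cons, List.map_append, List.sum_append, ih, List.map_cons, List.sum_cons]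
    simp

lemma ivx_rep (j k : ℕ) (L : List ℕ) : ivx (List.replicate j k ++ L) =
    j * (L.map fun b : ℕ => if b < k then 1 / ((k : ℝ) * b) else 0).sum + ivx L := by
  induction j with
  | zero => simp
  | succ j ih =>
    rw [List.replicate_succ, List.cons_append, ivx, ih, List.map_append, List.sum_append]
    have : (List.map (fun b : ℕ => if b < k then 1 / ((k : ℝ) * b) else 0)
        (List.replicate j k)).sum = 0 := by
      simp
    rw [this]
    push_cast
    ring

lemma ivy_rep (j k : ℕ) (L : List ℕ) : ivy (List.replicate j k ++ L) =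
    j * (L.map fun b : ℕ => if k < b then 1 / ((k : ℝ) * b) else 0).sum + ivy L := by
  induction j with
  | zero => simp
  | succ j ih =>
    rw [List.replicate_succ, List.cons_append, ivy, ih, List.map_append, List.sum_append]
    have : (List.map (fun b : ℕ => if k < b then 1 / ((k : ℝ) * b) else 0)
        (List.replicate j k)).sum = 0 := by
      simp
    rw [this]
    push_cast
    ring

lemma sum_ite (k : ℕ) (hk : 0 < k) (q : ℕ → Prop) [DecidablePred q] (l : List ℕ)
    (hl : ∀ b ∈ l, 0 < b) :
    (k : ℝ) * ((blk l).map fun b : ℕ => if q b then 1 / ((k : ℝ) * b) else 0).sum =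
      l.countP (fun b => q b) := by
  rw [sum_blk]
  induction l with
  | nil => simp
  | cons b l ih =>
    have hb : 0 < b := hl b (by simp)
    have ih' := ih (fun c hc => hl c (by simp [hc]))
    rw [List.map_cons, List.sum_cons, mul_add, ih', List.countP_cons]
    have hk' : (k : ℝ) ≠ 0 := by exact_mod_cast hk.ne'
    have hb' : (b : ℝ) ≠ 0 := by exact_mod_cast hb.ne'
    by_cases h : q b
    · simp only [h, if_true, decide_true]
      push_cast
      field_simp
      ring
    · simp [h]

theorem px : S_PX := by
  intro l hpos hnd
  clear hnd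
  induction l with
  | nil => simp [blk, ivx, ivy, dsc, ascN]
  | cons k l ih =>
    have hk : 0 < k := hpos k (by simp)
    have hl : ∀ b ∈ l, 0 < b := fun b hb => hpos b (by simp [hb])
    obtain ⟨h1, h2⟩ := ih hl
    rw [blk_cons]
    constructor
    · rw [ivx_rep, sum_ite k hk (fun b => b < k) l hl, h1]
      simp [dsc]
    · rw [ivy_rep, sum_ite k hk (fun b => k < b) l hl, h2]
      simp [ascN]

end Pool.Agent.W2helper92.CS
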