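import Mathlib

/-!
# Project GC (helper92, MP_b25393_ag): Chern slopes of rational line arrangements up to 73/30

The arrangement: `x = k, y = k, x + y = k` for `|k| ≤ A` and `x - y = k, 2 x + y = k, x + 2 y = k` for `|k| ≤ B`
(the affine root system `G₂`). Pieces: counts of lattice points, and the limit of the slopes.
-/

set_option autoImplicit false

namespace Pool.Agent.W2helper92.CS

open Finset Filter Topology

/-- the lattice square -/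
noncomputable def Sq (M : ℕ) : Finset (ℤ × ℤ) := Icc (-(M : ℤ)) M ×ˢ Icc (-(M : ℤ)) M

/-- U1. With `u = x - y`, `p = x + y`: pairs `(u, p)`, `|u| ≤ 2 b`, `|p| ≤ 2 a` with the same parity; there are
`(2 a + 1) (2 b + 1)` with `u`, `p` even and `2 a * 2 b` with `u`, `p` odd. (`|x|, |y| ≤ a + b ≤ M` automatically.)
Possible formal proof: fibres over `x - y = u` as in `Pool.TH330.CS.NP` (`Pool/Agent/TH330/CS/Count.lean`): the fibre over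
an even `u` has `2 a + 1` points, over an odd `u` it has `2 a`. -/
def P_U1 : Prop := ∀ M a b : ℕ, b ≤ a → 2 * a ≤ M →
  ((((Sq M).filter (fun s : ℤ × ℤ => |s.1 - s.2| ≤ 2 * (b : ℤ) ∧ |s.1 + s.2| ≤ 2 * (a : ℤ))).card : ℕ) : ℤ) =
    (2 * a + 1) * (2 * b + 1) + 4 * a * b

/-- U2. With `u = x - y`, `w = 2 x + y`: pairs `(u, w)`, `|u|, |w| ≤ 3 c`, with `3 ∣ u + w` (`3 x = u + w`). There are
`(2 c + 1) ^ 2 + 2 (2 c) ^ 2` of them. Fibres over `x - y = u`: `2 c + 1` points if `3 ∣ u`, else `2 c`. -/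
def P_U2 : Prop := ∀ M c : ℕ, 3 * c ≤ M →
  ((((Sq M).filter (fun s : ℤ × ℤ => |s.1 - s.2| ≤ 3 * (c : ℤ) ∧ |2 * s.1 + s.2| ≤ 3 * (c : ℤ))).card : ℕ) : ℤ) =
    12 * c ^ 2 + 4 * c + 1

/-- U3. The lattice points of the hexagon with the vertices `±(2c, -c), ±(c, c), ±(-c, 2c)` (Pick; or fibres over
`x - y = u`, `|u| ≤ 3 c`: for `|u| = 3 j + i`, `0 ≤ i ≤ 2`, the fibre is `{y : |2u + 3y| ≤ 3c, |u + 3y| ≤ 3c}`, for
`u = 3 j + i ≥ 0` this is `-c - (2u)/3 ≤ y ≤ c - (2u)/3` and `-c - u/3 ≤ y ≤ c - u/3`, so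
`-c - ⌊u/3⌋ ≤ y ≤ c - ⌈2u/3⌉`: `2 c + 1 + ⌊u/3⌋ - ⌈2u/3⌉` points; or fibres over `x = k`, `|k| ≤ 2 c`:
`max (k - 3c, -3c - 2k, ⌈(-3c - k)/2⌉) ≤ y ≤ min …`). -/
def P_U3 : Prop := ∀ M c : ℕ, 3 * c ≤ M →
  ((((Sq M).filter (fun s : ℤ × ℤ => |s.1 - s.2| ≤ 3 * (c : ℤ) ∧ |2 * s.1 + s.2| ≤ 3 * (c : ℤ) ∧
    |s.1 + 2 * s.2| ≤ 3 * (c : ℤ))).card : ℕ) : ℤ) = 9 * c ^ 2 + 3 * c + 1

/-- TH. The pairs `(u, w)` of the hexagon `|u|, |w|, |w - u| ≤ 3 c` with `3 ∤ u + w`: all pairs of the hexagon are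
`27 c ^ 2 + 9 c + 1` (`Pool.TH330.CS.NM` with `A = B = 3 c`), and those with `3 ∣ u + w` are in bijection with the points
of U3 by `(x, y) ↦ (x - y, 2 x + y)`. -/
def P_TH : Prop := P_U3 → ∀ c : ℕ,
  ((((Sq (3 * c)).filter (fun s : ℤ × ℤ => |s.1 - s.2| ≤ 3 * (c : ℤ) ∧ ¬ (3 : ℤ) ∣ s.1 + s.2)).card : ℕ) : ℤ) =
    18 * c ^ 2 + 6 * c

/-- LIM. The limit: `(21 + 48 β + 17 β ^ 2) / (9 (1 + β) ^ 2)` takes all values in `[7/3, 73/30]` for `β` in `[0, 3/7]`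
(value `7/3` at `0`, `73/30` at `3/7`, intermediate value theorem). If a set `S` contains for all `a, b ≥ 1` with
`6 b ≤ 2 a` the quotients below (with `A = 2 a`, `B = 6 b`: the main parts are `21 A² + 48 A B + 17 B²` and
`9 (A + B)²`; `l₁`, `l₂` are the lower order terms), then all points of `(7/3, 73/30]` are accumulation points of `S`. Copy
`Pool.TH330.CS` (`Pool/Agent/TH330/CS/Lim.lean`: `tend`, `mem_closure_aux`, `phi_surj`, `main`), with `a = n`,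
`b = ⌊β n / 3⌋₊`. -/
def P_LIM : Prop := ∀ (S : Set ℝ) (l₁ l₂ m₁ m₂ k₁ k₂ : ℝ),
  (∀ a b : ℕ, 1 ≤ b → 6 * b ≤ 2 * a →
    (21 * (2 * (a : ℝ)) ^ 2 + 48 * (2 * a) * (6 * b) + 17 * (6 * b) ^ 2 + l₁ * a + m₁ * b + k₁) /
      (9 * (2 * a + 6 * b) ^ 2 + l₂ * a + m₂ * b + k₂) ∈ S) →
  Set.Ioc (7 / 3 : ℝ) (73 / 30) ⊆ derivedSet S

end Pool.Agent.W2helper92.CS
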