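import Pool.Agent.TH330.CS.Lim
import Pool.Agent.W2helper92.CS.Stm

/-!
Project GC: the arrangement `x, y, x + y = k` (`|k| ≤ A`), `x - y, 2 x + y, x + 2 y = k` (`|k| ≤ B`).
-/

set_option autoImplicit false
open scoped LinearAlgebra.Projectivization
open Finset

noncomputable section

namespace Pool.Agent.W2helper92.CS

open Pool.TH330.CS (PP inc cnt inc_mk uniq Pts mem_Pts pair_sum wsum)

def dx : Fin 6 → ℚ := ![1, 0, 1, 1, 2, 1]
def dy : Fin 6 → ℚ := ![0, 1, 1, -1, 1, 2]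

def lv (t : Fin 6) (k : ℤ) : Fin 3 → ℚ := ![dx t, dy t, -(k : ℚ)]

lemma lv_ne (t : Fin 6) (k : ℤ) : lv t k ≠ 0 := by
  intro h
  have h0 := congrFun h 0
  have h1 := congrFun h 1
  fin_cases t <;> simp [lv, dx, dy] at h0 h1

/-- the lines -/
def ln (s : Sigma fun _ : Fin 6 => ℤ) : PP := Projectivization.mk ℚ (lv s.1 s.2) (lv_ne s.1 s.2)

lemma ln_inj : Function.Injective ln := by
  rintro ⟨t, k⟩ ⟨t', k'⟩ h
  unfold ln at h
  rw [Projectivization.mk_eq_mk_iff'] at h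
  obtain ⟨a, ha⟩ := h
  have h0 := congrFun ha 0
  have h1 := congrFun ha 1
  have h2 := congrFun ha 2
  have ha1 : t = t' ∧ a = 1 := by
    fin_cases t <;> fin_cases t' <;> simp [lv, dx, dy] at h0 h1 ⊢ <;>
      first
        | linarith
        | (constructor <;> linarith)
        | (exfalso; linarith)
  obtain ⟨rfl, rfl⟩ := ha1
  simp [lv] at h2
  rw [h2]

lemma inc_ln (p : PP) (t : Fin 6) (k : ℤ) :
    inc p (ln ⟨t, k⟩) ↔ dx t * p.rep 0 + dy t * p.rep 1 = k * p.rep 2 := by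
  unfold ln
  rw [inc_mk]
  simp only [lv, Matrix.cons_val_zero, Matrix.cons_val_one, Matrix.cons_val]
  constructor <;> intro h <;> linarith

def Rg (A B : ℕ) : Fin 6 → ℕ := ![A, A, A, B, B, B]

def Ix (A B : ℕ) : Finset (Sigma fun _ : Fin 6 => ℤ) :=
  (Finset.univ : Finset (Fin 6)).sigma fun t => Finset.Icc (-(Rg A B t : ℤ)) (Rg A B t)

open Classical in
def Arr (A B : ℕ) : Finset PP := (Ix A B).image ln

lemma card_Arr (A B : ℕ) : (Arr A B).card = 6 * A + 6 * B + 6 := by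
  classical
  unfold Arr
  have := Finset.card_image_of_injective (Ix A B) ln_inj
  rw [show (@Finset.image _ _ (fun a b => Classical.propDecidable (a = b)) ln (Ix A B)).card =
    (Ix A B).card by convert this]
  unfold Ix
  rw [Finset.card_sigma]
  simp only [Int.card_Icc, Fin.sum_univ_six]
  simp only [Rg, Matrix.cons_val_zero, Matrix.cons_val_one, Matrix.cons_val]
  omega

lemma cnt_Arr (A B : ℕ) (p : PP) : cnt (Arr A B) p = ∑ t : Fin 6,
    ((Finset.Icc (-(Rg A B t : ℤ)) (Rg A B t)).filter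
      (fun k : ℤ => dx t * p.rep 0 + dy t * p.rep 1 = k * p.rep 2)).card := by
  classical
  unfold cnt Arr
  rw [Finset.filter_image, Finset.card_image_of_injective _ ln_inj]
  unfold Ix
  rw [← Finset.card_sigma]
  congr 1
  ext ⟨t, k⟩
  simp only [Finset.mem_filter, Finset.mem_sigma, Finset.mem_univ, true_and]
  rw [← inc_ln]
  rfl

/-- points at infinity -/
lemma cnt_inf (A B : ℕ) (p : PP) (hz : p.rep 2 = 0) (t : Fin 6)
    (ht : dx t * p.rep 0 + dy t * p.rep 1 = 0) : cnt (Arr A B) p = 2 * Rg A B t + 1 := by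
  rw [cnt_Arr, Finset.sum_eq_single t]
  · rw [Finset.filter_true_of_mem]
    · rw [Int.card_Icc]; omega
    · intro k _; rw [hz, ht]; simp
  · intro t' _ hne
    rw [Finset.card_eq_zero, Finset.filter_eq_empty_iff]
    intro k _ hk
    rw [hz, mul_zero] at hk
    have hp := p.rep_nonzero
    have : p.rep 0 = 0 ∧ p.rep 1 = 0 := by
      fin_cases t <;> fin_cases t' <;> simp [dx, dy] at ht hk hne ⊢ <;> constructor <;> linarith
    apply hp
    ext i
    fin_cases i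
    · exact this.1
    · exact this.2
    · exact hz
  · intro h; exact absurd (Finset.mem_univ _) h

lemma cnt_inf0 (A B : ℕ) (p : PP) (hz : p.rep 2 = 0)
    (ht : ∀ t, dx t * p.rep 0 + dy t * p.rep 1 ≠ 0) : cnt (Arr A B) p = 0 := by
  rw [cnt_Arr]
  refine Finset.sum_eq_zero fun t _ => ?_
  rw [Finset.card_eq_zero, Finset.filter_eq_empty_iff]
  intro k _ hk
  rw [hz, mul_zero] at hk
  exact ht t hk

/-- condition at a finite point -/
def on (A B : ℕ) (x y : ℚ) (t : Fin 6) : Prop :=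
  ∃ k : ℤ, |k| ≤ (Rg A B t : ℤ) ∧ dx t * x + dy t * y = k

open Classical in
lemma cnt_fin (A B : ℕ) (p : PP) (hz : p.rep 2 ≠ 0) :
    cnt (Arr A B) p = ∑ t : Fin 6,
      if on A B (p.rep 0 / p.rep 2) (p.rep 1 / p.rep 2) t then 1 else 0 := by
  rw [cnt_Arr]
  refine Finset.sum_congr rfl fun t _ => ?_
  have key : ∀ k : ℤ, dx t * p.rep 0 + dy t * p.rep 1 = k * p.rep 2 ↔
      dx t * (p.rep 0 / p.rep 2) + dy t * (p.rep 1 / p.rep 2) = k := by
    intro k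
    rw [← mul_div_assoc, ← mul_div_assoc, ← add_div, div_eq_iff hz]
  split_ifs with h
  · obtain ⟨k, hk, e⟩ := h
    rw [Finset.card_eq_one]
    refine ⟨k, ?_⟩
    ext k'
    rw [Finset.mem_filter, Finset.mem_Icc, Finset.mem_singleton, key]
    rw [abs_le] at hk
    constructor
    · rintro ⟨_, h'⟩
      rw [e] at h'
      exact_mod_cast h'.symm
    · rintro rfl
      exact ⟨hk, e⟩
  · rw [Finset.card_eq_zero, Finset.filter_eq_empty_iff]
    intro k hk hk'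
    rw [key] at hk'
    rw [Finset.mem_Icc] at hk
    exact h ⟨k, abs_le.2 hk, hk'⟩

/-- finite points -/
def pq (s : ℚ × ℚ) : PP := Projectivization.mk ℚ ![s.1, s.2, 1] (by
  intro h; have := congrFun h 2; simp at this)

lemma pq_rep (s : ℚ × ℚ) : (pq s).rep 2 ≠ 0 ∧ (pq s).rep 0 / (pq s).rep 2 = s.1 ∧
    (pq s).rep 1 / (pq s).rep 2 = s.2 := by
  obtain ⟨a, ha⟩ := Projectivization.exists_smul_eq_mk_rep ℚ ![s.1, s.2, 1] (by
    intro h; have := congrFun h 2; simp at this)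
  have e : (pq s).rep = a • ![s.1, s.2, 1] := ha.symm
  have ha0 : (a : ℚ) ≠ 0 := a.ne_zero
  rw [e]
  simp only [Pi.smul_apply, Units.smul_def, smul_eq_mul, Matrix.cons_val_zero, Matrix.cons_val_one,
    Matrix.cons_val, mul_one]
  refine ⟨ha0, ?_, ?_⟩ <;> field_simp

lemma pq_inj : Function.Injective pq := by
  intro s s' h
  have h1 := pq_rep s
  have h2 := pq_rep s'
  rw [h] at h1
  ext
  · exact h1.2.1.symm.trans h2.2.1
  · exact h1.2.2.symm.trans h2.2.2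

lemma eq_pq (p : PP) (s : ℚ × ℚ) (hz : p.rep 2 ≠ 0) (h0 : p.rep 0 / p.rep 2 = s.1)
    (h1 : p.rep 1 / p.rep 2 = s.2) : p = pq s := by
  rw [← p.mk_rep]
  unfold pq
  rw [Projectivization.mk_eq_mk_iff']
  refine ⟨p.rep 2, ?_⟩
  rw [div_eq_iff hz] at h0 h1
  ext i
  fin_cases i
  · simp [h0, mul_comm]
  · simp [h1, mul_comm]
  · simp

/-- points at infinity -/
def ip (t : Fin 6) : PP := Projectivization.mk ℚ ![-dy t, dx t, 0] (by
  intro h
  have h0 := congrFun h 0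
  have h1 := congrFun h 1
  fin_cases t <;> simp [dx, dy] at h0 h1)

lemma ip_rep (t : Fin 6) : (ip t).rep 2 = 0 ∧ dx t * (ip t).rep 0 + dy t * (ip t).rep 1 = 0 := by
  obtain ⟨a, ha⟩ := Projectivization.exists_smul_eq_mk_rep ℚ ![-dy t, dx t, 0] (by
    intro h
    have h0 := congrFun h 0
    have h1 := congrFun h 1
    fin_cases t <;> simp [dx, dy] at h0 h1)
  have e : (ip t).rep = a • ![-dy t, dx t, 0] := ha.symm
  rw [e]
  simp only [Pi.smul_apply, Units.smul_def, smul_eq_mul, Matrix.cons_val_zero, Matrix.cons_val_one,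
    Matrix.cons_val, mul_zero, true_and]
  ring

lemma eq_ip (p : PP) (t : Fin 6) (hz : p.rep 2 = 0)
    (h : dx t * p.rep 0 + dy t * p.rep 1 = 0) : p = ip t := by
  have h2 := ip_rep t
  refine uniq (L := ln ⟨t, 0⟩) (M := ln ⟨t, 1⟩) ?_ ?_ ?_ ?_ ?_
  · rw [inc_ln, hz, h]; simp
  · rw [inc_ln, hz, h]; simp
  · rw [inc_ln, h2.1, h2.2]; simp
  · rw [inc_ln, h2.1, h2.2]; simp
  · intro e
    have := ln_inj e
    simp at this

lemma ip_inj : Function.Injective ip := by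
  intro t t' h
  unfold ip at h
  rw [Projectivization.mk_eq_mk_iff'] at h
  obtain ⟨a, ha⟩ := h
  have h0 := congrFun ha 0
  have h1 := congrFun ha 1
  fin_cases t <;> fin_cases t' <;> simp [dx, dy] at h0 h1 ⊢
  all_goals linarith

/-! ### multiplicities -/

/-- multiplicity of a lattice point -/
def cI (A B : ℕ) (s : ℤ × ℤ) : ℕ :=
  (if |s.1| ≤ (A : ℤ) then 1 else 0) + (if |s.2| ≤ (A : ℤ) then 1 else 0) +
  (if |s.1 + s.2| ≤ (A : ℤ) then 1 else 0) + (if |s.1 - s.2| ≤ (B : ℤ) then 1 else 0) +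
  (if |2 * s.1 + s.2| ≤ (B : ℤ) then 1 else 0) + (if |s.1 + 2 * s.2| ≤ (B : ℤ) then 1 else 0)

/-- lattice points -/
def pz (s : ℤ × ℤ) : PP := pq ((s.1 : ℚ), (s.2 : ℚ))

/-- the points with `x - y = u`, `2 x + y = w` -/
def pt3 (s : ℤ × ℤ) : PP := pq (((s.1 : ℚ) + s.2) / 3, ((s.2 : ℚ) - 2 * s.1) / 3)

lemma pz_inj : Function.Injective pz := by
  intro s s' h
  have h1 := pq_inj h
  simp only [Prod.mk.injEq, Int.cast_inj] at h1
  exact Prod.ext h1.1 h1.2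

lemma pt3_inj : Function.Injective pt3 := by
  intro s s' h
  have h1 := pq_inj h
  simp only [Prod.mk.injEq] at h1
  obtain ⟨h2, h3⟩ := h1
  have h4 : (s.1 : ℚ) = s'.1 := by linarith
  have h5 : (s.2 : ℚ) = s'.2 := by linarith
  exact Prod.ext (by exact_mod_cast h4) (by exact_mod_cast h5)

lemma on_int (A B : ℕ) (x y : ℚ) (t : Fin 6) (k : ℤ) (h : dx t * x + dy t * y = k) :
    on A B x y t ↔ |k| ≤ (Rg A B t : ℤ) := by
  constructor
  · rintro ⟨k', hk, e⟩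
    rw [h] at e
    have : k = k' := by exact_mod_cast e
    rw [this]; exact hk
  · intro hk
    exact ⟨k, hk, h⟩

lemma cnt_pz (A B : ℕ) (s : ℤ × ℤ) : cnt (Arr A B) (pz s) = cI A B s := by
  classical
  obtain ⟨hz, h0, h1⟩ := pq_rep ((s.1 : ℚ), (s.2 : ℚ))
  unfold pz
  rw [cnt_fin _ _ _ hz, h0, h1, Fin.sum_univ_six]
  have e0 := on_int A B (s.1 : ℚ) (s.2 : ℚ) 0 s.1 (by simp [dx, dy])
  have e1 := on_int A B (s.1 : ℚ) (s.2 : ℚ) 1 s.2 (by simp [dx, dy])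
  have e2 := on_int A B (s.1 : ℚ) (s.2 : ℚ) 2 (s.1 + s.2) (by simp [dx, dy])
  have e3 := on_int A B (s.1 : ℚ) (s.2 : ℚ) 3 (s.1 - s.2) (by simp [dx, dy]; ring)
  have e4 := on_int A B (s.1 : ℚ) (s.2 : ℚ) 4 (2 * s.1 + s.2) (by simp [dx, dy])
  have e5 := on_int A B (s.1 : ℚ) (s.2 : ℚ) 5 (s.1 + 2 * s.2) (by simp [dx, dy])
  simp only [e0, e1, e2, e3, e4, e5]
  rfl

/-- the set of the other triple points -/
def Th (B : ℕ) : Finset (ℤ × ℤ) :=
  (Sq B).filter (fun s : ℤ × ℤ => |s.1 - s.2| ≤ (B : ℤ) ∧ ¬ (3 : ℤ) ∣ s.1 + s.2)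

lemma not_on (A B : ℕ) (x y : ℚ) (t : Fin 6) (k : ℤ) (h : dx t * x + dy t * y = (k : ℚ) / 3)
    (hk : ¬ (3 : ℤ) ∣ k) : ¬ on A B x y t := by
  rintro ⟨k', -, e⟩
  rw [h, div_eq_iff (by norm_num)] at e
  apply hk
  refine ⟨k', ?_⟩
  have : (k : ℚ) = ((3 * k' : ℤ) : ℚ) := by rw [e]; push_cast; ring
  exact_mod_cast this

lemma cnt_pt3 (A B : ℕ) (s : ℤ × ℤ) (hs : s ∈ Th B) : cnt (Arr A B) (pt3 s) = 3 := by
  classical
  unfold Th Sq at hs
  rw [Finset.mem_filter, Finset.mem_product, Finset.mem_Icc, Finset.mem_Icc] at hs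
  obtain ⟨⟨hs1, hs2⟩, hs3, hs4⟩ := hs
  obtain ⟨hz, h0, h1⟩ := pq_rep (((s.1 : ℚ) + s.2) / 3, ((s.2 : ℚ) - 2 * s.1) / 3)
  unfold pt3
  rw [cnt_fin _ _ _ hz, h0, h1, Fin.sum_univ_six]
  simp only
  obtain ⟨X, hX⟩ : ∃ X, X = ((s.1 : ℚ) + s.2) / 3 := ⟨_, rfl⟩
  obtain ⟨Y, hY⟩ : ∃ Y, Y = ((s.2 : ℚ) - 2 * s.1) / 3 := ⟨_, rfl⟩
  rw [← hX, ← hY]
  have e0 : ¬ on A B X Y 0 := not_on A B X Y 0 (s.1 + s.2) (by simp [dx, dy, hX]) hs4
  have e1 : ¬ on A B X Y 1 := not_on A B X Y 1 (s.2 - 2 * s.1) (by simp [dx, dy, hY]) (by omega)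
  have e2 : ¬ on A B X Y 2 := not_on A B X Y 2 (2 * s.2 - s.1) (by
    simp [dx, dy, hX, hY]; ring) (by omega)
  have e3 : on A B X Y 3 := ⟨s.1, abs_le.2 hs1, by simp [dx, dy, hX, hY]; ring⟩
  have e4 : on A B X Y 4 := ⟨s.2, abs_le.2 hs2, by simp [dx, dy, hX, hY]; ring⟩
  have e5 : on A B X Y 5 := ⟨s.2 - s.1, by
    rw [abs_sub_comm]; exact hs3, by simp [dx, dy, hX, hY]; ring⟩
  rw [if_neg e0, if_neg e1, if_neg e2, if_pos e3, if_pos e4, if_pos e5]

end Pool.Agent.W2helper92.CS
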