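import Pool.Agent.W2helper92.CS.Arr

/-!
Project GC: sums over the intersection points.
-/

set_option autoImplicit false
open scoped LinearAlgebra.Projectivization
open Finset

noncomputable section

namespace Pool.Agent.W2helper92.CS

open Pool.TH330.CS (PP inc cnt inc_mk uniq Pts mem_Pts pair_sum wsum)

lemma bound (A B : ℕ) (hBA : B ≤ A) (i j : ℤ) (h3 : 3 ≤ cI A B (i, j)) : (i, j) ∈ Sq (4 * A) := by
  unfold Sq
  rw [mem_product, mem_Icc, mem_Icc]
  unfold cI at h3
  simp only [abs_le] at h3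
  push_cast
  split_ifs at h3 <;> omega

lemma three (A B : ℕ) (hBA : B ≤ A) (p : PP) (hz : p.rep 2 ≠ 0) (h : 3 ≤ cnt (Arr A B) p) :
    (∃ s ∈ Sq (4 * A), 3 ≤ cI A B s ∧ p = pz s) ∨ ∃ s ∈ Th B, p = pt3 s := by
  classical
  have h' := h
  rw [cnt_fin _ _ _ hz, Fin.sum_univ_six] at h
  obtain ⟨x, hx⟩ : ∃ x, x = p.rep 0 / p.rep 2 := ⟨_, rfl⟩
  obtain ⟨y, hy⟩ : ∃ y, y = p.rep 1 / p.rep 2 := ⟨_, rfl⟩
  rw [← hx, ← hy] at h
  have key : ∀ i j : ℤ, x = i → y = j → ∃ s ∈ Sq (4 * A), 3 ≤ cI A B s ∧ p = pz s := by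
    intro i j hi hj
    have e : p = pz (i, j) := eq_pq p _ hz (by rw [← hx]; exact hi) (by rw [← hy]; exact hj)
    have h3 : 3 ≤ cI A B (i, j) := by rw [← cnt_pz, ← e]; exact h'
    exact ⟨(i, j), bound A B hBA i j h3, h3, e⟩
  have c0 : on A B x y 0 → ∃ i : ℤ, x = i := by
    rintro ⟨k, -, e⟩; exact ⟨k, by simpa [dx, dy] using e⟩
  have c1 : on A B x y 1 → ∃ i : ℤ, y = i := by
    rintro ⟨k, -, e⟩; exact ⟨k, by simpa [dx, dy] using e⟩
  have c2 : on A B x y 2 → ∃ i : ℤ, x + y = i := by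
    rintro ⟨k, -, e⟩; exact ⟨k, by simpa [dx, dy] using e⟩
  have c3 : on A B x y 3 → ∃ i : ℤ, |i| ≤ (B : ℤ) ∧ x - y = i := by
    rintro ⟨k, hk, e⟩
    simp [dx, dy] at e
    exact ⟨k, hk, by linarith⟩
  have c4 : on A B x y 4 → ∃ i : ℤ, |i| ≤ (B : ℤ) ∧ 2 * x + y = i := by
    rintro ⟨k, hk, e⟩
    simp [dx, dy] at e
    exact ⟨k, hk, by linarith⟩
  have c5 : on A B x y 5 → ∃ i : ℤ, |i| ≤ (B : ℤ) ∧ x + 2 * y = i := by
    rintro ⟨k, hk, e⟩
    simp [dx, dy] at e
    exact ⟨k, hk, by linarith⟩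
  by_cases o0 : on A B x y 0
  · obtain ⟨i, hi⟩ := c0 o0
    left
    by_cases o1 : on A B x y 1
    · obtain ⟨j, hj⟩ := c1 o1
      exact key i j hi hj
    by_cases o2 : on A B x y 2
    · obtain ⟨k, hk⟩ := c2 o2
      exact key i (k - i) hi (by push_cast; linarith)
    by_cases o3 : on A B x y 3
    · obtain ⟨k, -, hk⟩ := c3 o3
      exact key i (i - k) hi (by push_cast; linarith)
    by_cases o4 : on A B x y 4
    · obtain ⟨k, -, hk⟩ := c4 o4
      exact key i (k - 2 * i) hi (by push_cast; linarith)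
    exfalso
    rw [if_neg o1, if_neg o2, if_neg o3, if_neg o4] at h
    split_ifs at h <;> omega
  by_cases o1 : on A B x y 1
  · obtain ⟨j, hj⟩ := c1 o1
    left
    by_cases o2 : on A B x y 2
    · obtain ⟨k, hk⟩ := c2 o2
      exact key (k - j) j (by push_cast; linarith) hj
    by_cases o3 : on A B x y 3
    · obtain ⟨k, -, hk⟩ := c3 o3
      exact key (k + j) j (by push_cast; linarith) hj
    by_cases o5 : on A B x y 5
    · obtain ⟨k, -, hk⟩ := c5 o5
      exact key (k - 2 * j) j (by push_cast; linarith) hj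
    exfalso
    rw [if_neg o0, if_neg o2, if_neg o3, if_neg o5] at h
    split_ifs at h <;> omega
  by_cases o2 : on A B x y 2
  · obtain ⟨k, hk⟩ := c2 o2
    left
    by_cases o4 : on A B x y 4
    · obtain ⟨l, -, hl⟩ := c4 o4
      exact key (l - k) (2 * k - l) (by push_cast; linarith) (by push_cast; linarith)
    by_cases o5 : on A B x y 5
    · obtain ⟨l, -, hl⟩ := c5 o5
      exact key (2 * k - l) (l - k) (by push_cast; linarith) (by push_cast; linarith)
    exfalso
    rw [if_neg o0, if_neg o1, if_neg o4, if_neg o5] at h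
    split_ifs at h <;> omega
  have o3 : on A B x y 3 := by
    by_contra o3
    rw [if_neg o0, if_neg o1, if_neg o2, if_neg o3] at h
    split_ifs at h <;> omega
  have o4 : on A B x y 4 := by
    by_contra o4
    rw [if_neg o0, if_neg o1, if_neg o2, if_neg o4] at h
    split_ifs at h <;> omega
  have o5 : on A B x y 5 := by
    by_contra o5
    rw [if_neg o0, if_neg o1, if_neg o2, if_neg o5] at h
    split_ifs at h <;> omega
  obtain ⟨u, hu, hu'⟩ := c3 o3
  obtain ⟨w, hw, hw'⟩ := c4 o4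
  obtain ⟨z, hzz, hz'⟩ := c5 o5
  have hzu : z = w - u := by
    have : (z : ℚ) = ((w - u : ℤ) : ℚ) := by push_cast; linarith
    exact_mod_cast this
  by_cases hd : (3 : ℤ) ∣ u + w
  · obtain ⟨m, hm⟩ := hd
    left
    have hm' : (u : ℚ) + w = 3 * m := by exact_mod_cast hm
    exact key m (m - u) (by linarith) (by push_cast; linarith)
  · right
    refine ⟨(u, w), ?_, eq_pq p _ hz ?_ ?_⟩
    · unfold Th Sq
      rw [mem_filter, mem_product, mem_Icc, mem_Icc]
      refine ⟨⟨abs_le.1 hu, abs_le.1 hw⟩, ?_, hd⟩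
      rw [abs_sub_comm]
      change |w - u| ≤ (B : ℤ)
      rw [← hzu]
      exact hzz
    · rw [← hx]
      simp only
      linarith
    · rw [← hy]
      simp only
      linarith

lemma gsum (A B : ℕ) (hB : 1 ≤ B) (hBA : B ≤ A) (g : ℕ → ℝ) (g2 : g 2 = 0) :
    ∑ p ∈ Pts (Arr A B), g (cnt (Arr A B) p) =
      ∑ t : Fin 6, g (2 * Rg A B t + 1) +
      ∑ s ∈ (Sq (4 * A)).filter (fun s => 3 ≤ cI A B s), g (cI A B s) + g 3 * ((Th B).card : ℝ) := by
  classical
  have hR : ∀ t, 1 ≤ Rg A B t := by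
    intro t; fin_cases t <;> simp [Rg] <;> omega
  set I : Finset PP := (Finset.univ : Finset (Fin 6)).image ip with hI
  set T : Finset PP := ((Sq (4 * A)).filter (fun s => 3 ≤ cI A B s)).image pz with hTd
  set U : Finset PP := (Th B).image pt3 with hUd
  have hpz : ∀ s, (pz s).rep 2 ≠ 0 := fun s => (pq_rep _).1
  have hpt : ∀ s, (pt3 s).rep 2 ≠ 0 := fun s => (pq_rep _).1
  have hdis : Disjoint I T := by
    rw [Finset.disjoint_left]
    intro p hp hp'
    obtain ⟨t, _, rfl⟩ := Finset.mem_image.1 hp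
    obtain ⟨s, _, e⟩ := Finset.mem_image.1 hp'
    have := hpz s
    rw [e] at this
    exact this (ip_rep t).1
  have hdis2 : Disjoint (I ∪ T) U := by
    rw [Finset.disjoint_left]
    intro p hp hp'
    obtain ⟨s, hs, e⟩ := Finset.mem_image.1 hp'
    rcases Finset.mem_union.1 hp with hp | hp
    · obtain ⟨t, _, rfl⟩ := Finset.mem_image.1 hp
      have := hpt s
      rw [e] at this
      exact this (ip_rep t).1
    · obtain ⟨s', _, e'⟩ := Finset.mem_image.1 hp
      rw [← e] at e'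
      have h1 := pq_inj e'
      simp only [Prod.mk.injEq] at h1
      unfold Th at hs
      rw [mem_filter] at hs
      apply hs.2.2
      refine ⟨s'.1, ?_⟩
      have h2 : ((s.1 + s.2 : ℤ) : ℚ) = ((3 * s'.1 : ℤ) : ℚ) := by push_cast; linarith [h1.1]
      exact_mod_cast h2
  have hsub : I ∪ T ∪ U ⊆ Pts (Arr A B) := by
    intro p hp
    rw [mem_Pts]
    rcases Finset.mem_union.1 hp with hp | hp
    · rcases Finset.mem_union.1 hp with hp | hp
      · obtain ⟨t, _, rfl⟩ := Finset.mem_image.1 hp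
        rw [cnt_inf A B _ (ip_rep t).1 t (ip_rep t).2]
        have := hR t
        omega
      · obtain ⟨s, hs, rfl⟩ := Finset.mem_image.1 hp
        rw [cnt_pz]
        have := (mem_filter.1 hs).2
        omega
    · obtain ⟨s, hs, rfl⟩ := Finset.mem_image.1 hp
      rw [cnt_pt3 A B s hs]
      omega
  rw [← Finset.sum_subset hsub, Finset.sum_union hdis2, Finset.sum_union hdis,
    Finset.sum_image (fun a _ b _ h => ip_inj h), Finset.sum_image (fun a _ b _ h => pz_inj h),
    Finset.sum_image (fun a _ b _ h => pt3_inj h)]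
  · congr 1
    · congr 1
      · refine Finset.sum_congr rfl fun t _ => ?_
        rw [cnt_inf A B _ (ip_rep t).1 t (ip_rep t).2]
      · refine Finset.sum_congr rfl fun s hs => ?_
        rw [cnt_pz]
    · rw [Finset.sum_congr rfl fun s hs => by rw [cnt_pt3 A B s hs], Finset.sum_const, nsmul_eq_mul,
        mul_comm]
  · intro p hp hp'
    rw [mem_Pts] at hp
    have h3 : ¬ 3 ≤ cnt (Arr A B) p := by
      intro h3
      apply hp'
      rw [Finset.mem_union, Finset.mem_union]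
      by_cases hz : p.rep 2 = 0
      · left; left
        by_cases hex : ∃ t, dx t * p.rep 0 + dy t * p.rep 1 = 0
        · obtain ⟨t, ht⟩ := hex
          rw [eq_ip p t hz ht]
          exact Finset.mem_image_of_mem _ (Finset.mem_univ t)
        · push Not at hex
          rw [cnt_inf0 A B p hz hex] at h3
          omega
      · rcases three A B hBA p hz h3 with ⟨s, hs, hs3, rfl⟩ | ⟨s, hs, rfl⟩
        · left; right
          exact Finset.mem_image_of_mem _ (mem_filter.2 ⟨hs, hs3⟩)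
        · right
          exact Finset.mem_image_of_mem _ hs
    have : cnt (Arr A B) p = 2 := by omega
    rw [this, g2]

lemma bool_id (g : ℕ → ℝ) (S0 S1 S2 L1 L2 L3 : Prop) [Decidable S0] [Decidable S1] [Decidable S2]
    [Decidable L1] [Decidable L2] [Decidable L3]
    (e1 : L1 → S2 → S0 ∧ S1) (e2 : L2 → S1 → S0 ∧ S2) (e3 : L3 → S0 → S1 ∧ S2)
    (f12 : L1 → L2 → S0 ∧ S1 ∧ S2) (f13 : L1 → L3 → S0 ∧ S1 ∧ S2) (f23 : L2 → L3 → S0 ∧ S1 ∧ S2) :
    (if 3 ≤ (if S0 then 1 else 0) + (if S1 then 1 else 0) + (if S2 then 1 else 0) +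
      (if L1 then 1 else 0) + (if L2 then 1 else 0) + (if L3 then 1 else 0) then
      g ((if S0 then 1 else 0) + (if S1 then 1 else 0) + (if S2 then 1 else 0) +
      (if L1 then 1 else 0) + (if L2 then 1 else 0) + (if L3 then 1 else 0)) else 0) =
      g 3 * (if S0 ∧ S1 ∧ S2 then 1 else 0) +
      (g 4 - 2 * g 3) * ((if L1 ∧ S2 then 1 else 0) + (if L2 ∧ S1 then 1 else 0) +
        (if L3 ∧ S0 then 1 else 0)) +
      g 3 * ((if S0 ∧ S1 ∧ L1 then 1 else 0) + (if S0 ∧ S2 ∧ L2 then 1 else 0) +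
        (if S1 ∧ S2 ∧ L3 then 1 else 0)) +
      (g 5 - 2 * g 4 + g 3) * ((if L1 ∧ L2 then 1 else 0) + (if L1 ∧ L3 then 1 else 0) +
        (if L2 ∧ L3 then 1 else 0)) +
      (g 6 - 3 * g 5 + 3 * g 4 - g 3) * (if L1 ∧ L2 ∧ L3 then 1 else 0) := by
  by_cases s0 : S0 <;> by_cases s1 : S1 <;> by_cases s2 : S2 <;> by_cases l1 : L1 <;>
    by_cases l2 : L2 <;> by_cases l3 : L3 <;>
    simp only [s0, s1, s2, l1, l2, l3, true_implies, false_implies, and_true, and_false, true_and,
      false_and, implies_true, imp_false, not_true] at e1 e2 e3 f12 f13 f23 <;>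
    simp [s0, s1, s2, l1, l2, l3] <;> ring

end Pool.Agent.W2helper92.CS
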