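import Pool.Agent.W2helper92.CS.Count
import Pool.Agent.W2helper12.CS.U1
import Pool.Agent.W2helper19.CS.TH
import Pool.Agent.W2helper53.CS.U23
import Pool.Agent.W2helper98.CS.LIM

/-!
Project GC: the slopes of the arrangement and the main statement.
-/

set_option autoImplicit false
open scoped LinearAlgebra.Projectivization
open Finset

noncomputable section

namespace Pool.Agent.W2helper92.CS

open Pool.TH330.CS (PP inc cnt inc_mk uniq Pts mem_Pts pair_sum wsum NP NM Slopes)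

/-- number of points of the square with the property `P` -/
def nb (M : ℕ) (P : ℤ × ℤ → Prop) [DecidablePred P] : ℝ := (((Sq M).filter P).card : ℝ)

lemma sum_nb (M : ℕ) (P : ℤ × ℤ → Prop) [DecidablePred P] :
    ∑ s ∈ Sq M, (if P s then (1 : ℝ) else 0) = nb M P := by
  rw [Finset.sum_boole]
  rfl

lemma latsum (A B : ℕ) (hBA : B ≤ A) (g : ℕ → ℝ) :
    ∑ s ∈ (Sq (4 * A)).filter (fun s => 3 ≤ cI A B s), g (cI A B s) =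
      g 3 * nb (4 * A) (fun s => |s.1| ≤ (A : ℤ) ∧ |s.2| ≤ (A : ℤ) ∧ |s.1 + s.2| ≤ (A : ℤ)) +
      (g 4 - 2 * g 3) *
        (nb (4 * A) (fun s => |s.1 - s.2| ≤ (B : ℤ) ∧ |s.1 + s.2| ≤ (A : ℤ)) +
         nb (4 * A) (fun s => |2 * s.1 + s.2| ≤ (B : ℤ) ∧ |s.2| ≤ (A : ℤ)) +
         nb (4 * A) (fun s => |s.1 + 2 * s.2| ≤ (B : ℤ) ∧ |s.1| ≤ (A : ℤ))) +
      g 3 *
        (nb (4 * A) (fun s => |s.1| ≤ (A : ℤ) ∧ |s.2| ≤ (A : ℤ) ∧ |s.1 - s.2| ≤ (B : ℤ)) +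
         nb (4 * A) (fun s => |s.1| ≤ (A : ℤ) ∧ |s.1 + s.2| ≤ (A : ℤ) ∧ |2 * s.1 + s.2| ≤ (B : ℤ)) +
         nb (4 * A) (fun s => |s.2| ≤ (A : ℤ) ∧ |s.1 + s.2| ≤ (A : ℤ) ∧ |s.1 + 2 * s.2| ≤ (B : ℤ))) +
      (g 5 - 2 * g 4 + g 3) *
        (nb (4 * A) (fun s => |s.1 - s.2| ≤ (B : ℤ) ∧ |2 * s.1 + s.2| ≤ (B : ℤ)) +
         nb (4 * A) (fun s => |s.1 - s.2| ≤ (B : ℤ) ∧ |s.1 + 2 * s.2| ≤ (B : ℤ)) +
         nb (4 * A) (fun s => |2 * s.1 + s.2| ≤ (B : ℤ) ∧ |s.1 + 2 * s.2| ≤ (B : ℤ))) +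
      (g 6 - 3 * g 5 + 3 * g 4 - g 3) *
        nb (4 * A) (fun s => |s.1 - s.2| ≤ (B : ℤ) ∧ |2 * s.1 + s.2| ≤ (B : ℤ) ∧
          |s.1 + 2 * s.2| ≤ (B : ℤ)) := by
  classical
  rw [Finset.sum_filter]
  simp only [← sum_nb, ← Finset.sum_add_distrib, Finset.mul_sum]
  refine Finset.sum_congr rfl fun s _ => ?_
  have hBA' : (B : ℤ) ≤ A := by exact_mod_cast hBA
  refine bool_id g (|s.1| ≤ (A : ℤ)) (|s.2| ≤ (A : ℤ)) (|s.1 + s.2| ≤ (A : ℤ))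
    (|s.1 - s.2| ≤ (B : ℤ)) (|2 * s.1 + s.2| ≤ (B : ℤ)) (|s.1 + 2 * s.2| ≤ (B : ℤ))
    ?_ ?_ ?_ ?_ ?_ ?_ <;>
  · simp only [abs_le]
    omega

/-- transport of a count -/
lemma nb_congr (M : ℕ) (P Q : ℤ × ℤ → Prop) [DecidablePred P] [DecidablePred Q]
    (f f' : ℤ × ℤ → ℤ × ℤ)
    (h1 : ∀ s, s ∈ Sq M → P s → f s ∈ Sq M ∧ Q (f s) ∧ f' (f s) = s)
    (h2 : ∀ s, s ∈ Sq M → Q s → f' s ∈ Sq M ∧ P (f' s) ∧ f (f' s) = s) : nb M P = nb M Q := by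
  unfold nb
  congr 1
  refine Finset.card_nbij' f f' ?_ ?_ ?_ ?_
  · intro s hs
    rw [Finset.mem_coe, Finset.mem_filter] at hs
    rw [Finset.mem_coe, Finset.mem_filter]
    exact ⟨(h1 s hs.1 hs.2).1, (h1 s hs.1 hs.2).2.1⟩
  · intro s hs
    rw [Finset.mem_coe, Finset.mem_filter] at hs
    rw [Finset.mem_coe, Finset.mem_filter]
    exact ⟨(h2 s hs.1 hs.2).1, (h2 s hs.1 hs.2).2.1⟩
  · intro s hs
    rw [Finset.mem_coe, Finset.mem_filter] at hs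
    exact (h1 s hs.1 hs.2).2.2
  · intro s hs
    rw [Finset.mem_coe, Finset.mem_filter] at hs
    exact (h2 s hs.1 hs.2).2.2

lemma mem_Sq (M : ℕ) (s : ℤ × ℤ) : s ∈ Sq M ↔
    (-(M : ℤ) ≤ s.1 ∧ s.1 ≤ M) ∧ (-(M : ℤ) ≤ s.2 ∧ s.2 ≤ M) := by
  unfold Sq
  rw [mem_product, mem_Icc, mem_Icc]

/-- from the square `Lat A` -/
lemma nb_lat (A M : ℕ) (hM : A ≤ M) (P : ℤ × ℤ → Prop) [DecidablePred P] :
    nb M (fun s => |s.1| ≤ (A : ℤ) ∧ |s.2| ≤ (A : ℤ) ∧ P s) = (((Pool.TH330.CS.Lat A).filter P).card : ℝ) := by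
  unfold nb
  congr 2
  ext s
  have hM' : (A : ℤ) ≤ M := by exact_mod_cast hM
  simp only [Finset.mem_filter, mem_Sq, Pool.TH330.CS.Lat, mem_product, mem_Icc, abs_le]
  constructor
  · rintro ⟨-, h1, h2, h3⟩
    exact ⟨⟨h1, h2⟩, h3⟩
  · rintro ⟨⟨h1, h2⟩, h3⟩
    exact ⟨⟨⟨by omega, by omega⟩, by omega, by omega⟩, h1, h2, h3⟩

lemma n_hex (A : ℕ) : nb (4 * A) (fun s => |s.1| ≤ (A : ℤ) ∧ |s.2| ≤ (A : ℤ) ∧
    |s.1 + s.2| ≤ (A : ℤ)) = 3 * A ^ 2 + 3 * A + 1 := by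
  rw [nb_lat A (4 * A) (by omega) (fun s => |s.1 + s.2| ≤ (A : ℤ))]
  have h := NP A A le_rfl
  have h' : (((Pool.TH330.CS.Lat A).filter (fun s => |s.1 + s.2| ≤ (A : ℤ))).card : ℝ) =
      (2 * A + 1) * (2 * A + 1) - A * (A + 1) := by exact_mod_cast h
  rw [h']
  ring

lemma n_q1 (A B : ℕ) (hBA : B ≤ A) : nb (4 * A) (fun s => |s.1| ≤ (A : ℤ) ∧ |s.2| ≤ (A : ℤ) ∧
    |s.1 - s.2| ≤ (B : ℤ)) = (2 * B + 1) * (2 * A + 1) - B * (B + 1) := by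
  rw [nb_lat A (4 * A) (by omega) (fun s => |s.1 - s.2| ≤ (B : ℤ))]
  have h := NM A B hBA
  exact_mod_cast h

lemma n_q2 (A B : ℕ) (hBA : B ≤ A) : nb (4 * A) (fun s => |s.1| ≤ (A : ℤ) ∧
    |s.1 + s.2| ≤ (A : ℤ) ∧ |2 * s.1 + s.2| ≤ (B : ℤ)) =
    (2 * B + 1) * (2 * A + 1) - B * (B + 1) := by
  rw [← n_q1 A B hBA]
  refine nb_congr _ _ _ (fun s => (s.1 + s.2, -s.1)) (fun s => (-s.2, s.1 + s.2)) ?_ ?_
  · rintro ⟨x, y⟩ h1 h2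
    simp only [mem_Sq, abs_le, Prod.mk.injEq] at h1 h2 ⊢
    push_cast at *
    omega
  · rintro ⟨x, y⟩ h1 h2
    simp only [mem_Sq, abs_le, Prod.mk.injEq] at h1 h2 ⊢
    push_cast at *
    omega

lemma n_q3 (A B : ℕ) (hBA : B ≤ A) : nb (4 * A) (fun s => |s.2| ≤ (A : ℤ) ∧
    |s.1 + s.2| ≤ (A : ℤ) ∧ |s.1 + 2 * s.2| ≤ (B : ℤ)) =
    (2 * B + 1) * (2 * A + 1) - B * (B + 1) := by
  rw [← n_q1 A B hBA]
  refine nb_congr _ _ _ (fun s => (s.1 + s.2, -s.2)) (fun s => (s.1 + s.2, -s.2)) ?_ ?_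
  · rintro ⟨x, y⟩ h1 h2
    simp only [mem_Sq, abs_le, Prod.mk.injEq] at h1 h2 ⊢
    push_cast at *
    omega
  · rintro ⟨x, y⟩ h1 h2
    simp only [mem_Sq, abs_le, Prod.mk.injEq] at h1 h2 ⊢
    push_cast at *
    omega

lemma n_u1 (a b : ℕ) (hb : 6 * b ≤ 2 * a) : nb (4 * (2 * a)) (fun s =>
    |s.1 - s.2| ≤ ((6 * b : ℕ) : ℤ) ∧ |s.1 + s.2| ≤ ((2 * a : ℕ) : ℤ)) =
    (2 * a + 1) * (6 * b + 1) + 12 * a * b := by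
  have h := Pool.Agent.W2helper12.CS.p_u1 (4 * (2 * a)) a (3 * b) (by omega) (by omega)
  unfold nb
  have e : (Sq (4 * (2 * a))).filter (fun s : ℤ × ℤ =>
      |s.1 - s.2| ≤ ((6 * b : ℕ) : ℤ) ∧ |s.1 + s.2| ≤ ((2 * a : ℕ) : ℤ)) =
      (Sq (4 * (2 * a))).filter (fun s : ℤ × ℤ =>
      |s.1 - s.2| ≤ 2 * ((3 * b : ℕ) : ℤ) ∧ |s.1 + s.2| ≤ 2 * (a : ℤ)) := by
    refine Finset.filter_congr fun s _ => ?_
    rw [show ((6 * b : ℕ) : ℤ) = 2 * ((3 * b : ℕ) : ℤ) by push_cast; ring,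
      show ((2 * a : ℕ) : ℤ) = 2 * (a : ℤ) by push_cast; ring]
  rw [e]
  have h' := congrArg (fun z : ℤ => (z : ℝ)) h
  rw [Int.cast_natCast] at h'
  rw [h']
  push_cast
  ring

lemma n_u1b (a b : ℕ) (hb : 6 * b ≤ 2 * a) : nb (4 * (2 * a)) (fun s =>
    |2 * s.1 + s.2| ≤ ((6 * b : ℕ) : ℤ) ∧ |s.2| ≤ ((2 * a : ℕ) : ℤ)) =
    (2 * a + 1) * (6 * b + 1) + 12 * a * b := by
  rw [← n_u1 a b hb]
  refine nb_congr _ _ _ (fun s => (s.1 + s.2, -s.1)) (fun s => (-s.2, s.1 + s.2)) ?_ ?_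
  · rintro ⟨x, y⟩ h1 h2
    simp only [mem_Sq, abs_le, Prod.mk.injEq] at h1 h2 ⊢
    push_cast at *
    omega
  · rintro ⟨x, y⟩ h1 h2
    simp only [mem_Sq, abs_le, Prod.mk.injEq] at h1 h2 ⊢
    push_cast at *
    omega

lemma n_u1c (a b : ℕ) (hb : 6 * b ≤ 2 * a) : nb (4 * (2 * a)) (fun s =>
    |s.1 + 2 * s.2| ≤ ((6 * b : ℕ) : ℤ) ∧ |s.1| ≤ ((2 * a : ℕ) : ℤ)) =
    (2 * a + 1) * (6 * b + 1) + 12 * a * b := by
  rw [← n_u1 a b hb]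
  refine nb_congr _ _ _ (fun s => (s.1 + s.2, -s.2)) (fun s => (s.1 + s.2, -s.2)) ?_ ?_
  · rintro ⟨x, y⟩ h1 h2
    simp only [mem_Sq, abs_le, Prod.mk.injEq] at h1 h2 ⊢
    push_cast at *
    omega
  · rintro ⟨x, y⟩ h1 h2
    simp only [mem_Sq, abs_le, Prod.mk.injEq] at h1 h2 ⊢
    push_cast at *
    omega

lemma n_u2 (a b : ℕ) (hb : 6 * b ≤ 2 * a) : nb (4 * (2 * a)) (fun s =>
    |s.1 - s.2| ≤ ((6 * b : ℕ) : ℤ) ∧ |2 * s.1 + s.2| ≤ ((6 * b : ℕ) : ℤ)) =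
    48 * b ^ 2 + 8 * b + 1 := by
  have h := Pool.Agent.W2helper53.CS.U23.p_u2 (4 * (2 * a)) (2 * b) (by omega)
  unfold nb
  have e : (Sq (4 * (2 * a))).filter (fun s : ℤ × ℤ =>
      |s.1 - s.2| ≤ ((6 * b : ℕ) : ℤ) ∧ |2 * s.1 + s.2| ≤ ((6 * b : ℕ) : ℤ)) =
      (Sq (4 * (2 * a))).filter (fun s : ℤ × ℤ =>
      |s.1 - s.2| ≤ 3 * ((2 * b : ℕ) : ℤ) ∧ |2 * s.1 + s.2| ≤ 3 * ((2 * b : ℕ) : ℤ)) := by
    refine Finset.filter_congr fun s _ => ?_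
    rw [show ((6 * b : ℕ) : ℤ) = 3 * ((2 * b : ℕ) : ℤ) by push_cast; ring]
  rw [e]
  have h' := congrArg (fun z : ℤ => (z : ℝ)) h
  rw [Int.cast_natCast] at h'
  rw [h']
  push_cast
  ring

lemma n_u2b (a b : ℕ) (hb : 6 * b ≤ 2 * a) : nb (4 * (2 * a)) (fun s =>
    |s.1 - s.2| ≤ ((6 * b : ℕ) : ℤ) ∧ |s.1 + 2 * s.2| ≤ ((6 * b : ℕ) : ℤ)) =
    48 * b ^ 2 + 8 * b + 1 := by
  rw [← n_u2 a b hb]
  refine nb_congr _ _ _ (fun s => (s.2, s.1)) (fun s => (s.2, s.1)) ?_ ?_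
  · rintro ⟨x, y⟩ h1 h2
    simp only [mem_Sq, abs_le, and_true] at h1 h2 ⊢
    push_cast at *
    omega
  · rintro ⟨x, y⟩ h1 h2
    simp only [mem_Sq, abs_le, and_true] at h1 h2 ⊢
    push_cast at *
    omega

lemma n_u2c (a b : ℕ) (hb : 6 * b ≤ 2 * a) : nb (4 * (2 * a)) (fun s =>
    |2 * s.1 + s.2| ≤ ((6 * b : ℕ) : ℤ) ∧ |s.1 + 2 * s.2| ≤ ((6 * b : ℕ) : ℤ)) =
    48 * b ^ 2 + 8 * b + 1 := by
  rw [← n_u2 a b hb]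
  refine nb_congr _ _ _ (fun s => (s.1 + s.2, -s.1)) (fun s => (-s.2, s.1 + s.2)) ?_ ?_
  · rintro ⟨x, y⟩ h1 h2
    simp only [mem_Sq, abs_le, Prod.mk.injEq] at h1 h2 ⊢
    push_cast at *
    omega
  · rintro ⟨x, y⟩ h1 h2
    simp only [mem_Sq, abs_le, Prod.mk.injEq] at h1 h2 ⊢
    push_cast at *
    omega

lemma n_u3 (a b : ℕ) (hb : 6 * b ≤ 2 * a) : nb (4 * (2 * a)) (fun s =>
    |s.1 - s.2| ≤ ((6 * b : ℕ) : ℤ) ∧ |2 * s.1 + s.2| ≤ ((6 * b : ℕ) : ℤ) ∧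
      |s.1 + 2 * s.2| ≤ ((6 * b : ℕ) : ℤ)) = 36 * b ^ 2 + 6 * b + 1 := by
  have h := Pool.Agent.W2helper53.CS.U23.p_u3 (4 * (2 * a)) (2 * b) (by omega)
  unfold nb
  have e : (Sq (4 * (2 * a))).filter (fun s : ℤ × ℤ =>
      |s.1 - s.2| ≤ ((6 * b : ℕ) : ℤ) ∧ |2 * s.1 + s.2| ≤ ((6 * b : ℕ) : ℤ) ∧
      |s.1 + 2 * s.2| ≤ ((6 * b : ℕ) : ℤ)) =
      (Sq (4 * (2 * a))).filter (fun s : ℤ × ℤ =>
      |s.1 - s.2| ≤ 3 * ((2 * b : ℕ) : ℤ) ∧ |2 * s.1 + s.2| ≤ 3 * ((2 * b : ℕ) : ℤ) ∧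
      |s.1 + 2 * s.2| ≤ 3 * ((2 * b : ℕ) : ℤ)) := by
    refine Finset.filter_congr fun s _ => ?_
    rw [show ((6 * b : ℕ) : ℤ) = 3 * ((2 * b : ℕ) : ℤ) by push_cast; ring]
  rw [e]
  have h' := congrArg (fun z : ℤ => (z : ℝ)) h
  rw [Int.cast_natCast] at h'
  rw [h']
  push_cast
  ring

lemma n_th (b : ℕ) : ((Th (6 * b)).card : ℝ) = 72 * b ^ 2 + 12 * b := by
  have h := Pool.Agent.W2helper19.CS.p_th Pool.Agent.W2helper53.CS.U23.p_u3 (2 * b)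
  unfold Th
  rw [show 3 * (2 * b) = 6 * b by ring] at h
  have e : (Sq (6 * b)).filter (fun s : ℤ × ℤ =>
      |s.1 - s.2| ≤ ((6 * b : ℕ) : ℤ) ∧ ¬ (3 : ℤ) ∣ s.1 + s.2) =
      (Sq (6 * b)).filter (fun s : ℤ × ℤ =>
      |s.1 - s.2| ≤ 3 * ((2 * b : ℕ) : ℤ) ∧ ¬ (3 : ℤ) ∣ s.1 + s.2) := by
    refine Finset.filter_congr fun s _ => ?_
    rw [show ((6 * b : ℕ) : ℤ) = 3 * ((2 * b : ℕ) : ℤ) by push_cast; ring]
  rw [e]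
  have h' := congrArg (fun z : ℤ => (z : ℝ)) h
  rw [Int.cast_natCast] at h'
  rw [h']
  push_cast
  ring

/-- the sum of a weight over all intersection points -/
lemma wtot (a b : ℕ) (hb1 : 1 ≤ b) (hb : 6 * b ≤ 2 * a) (w g : ℕ → ℝ)
    (hg : ∀ c, g c = w c - w 2 * ((c : ℝ) * (c - 1) / 2)) :
    ∑ p ∈ Pts (Arr (2 * a) (6 * b)), w (cnt (Arr (2 * a) (6 * b)) p) =
      w 2 * (((12 * a + 36 * b + 6) * (12 * a + 36 * b + 5)) / 2 : ℝ) +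
      3 * g (2 * (2 * a) + 1) + 3 * g (2 * (6 * b) + 1) +
      (g 3 * (3 * (2 * a) ^ 2 + 3 * (2 * a) + 1) +
      (g 4 - 2 * g 3) * (3 * ((2 * a + 1) * (6 * b + 1) + 12 * a * b)) +
      g 3 * (3 * ((2 * (6 * b) + 1) * (2 * (2 * a) + 1) - 6 * b * (6 * b + 1))) +
      (g 5 - 2 * g 4 + g 3) * (3 * (48 * b ^ 2 + 8 * b + 1)) +
      (g 6 - 3 * g 5 + 3 * g 4 - g 3) * (36 * b ^ 2 + 6 * b + 1)) +
      g 3 * (72 * b ^ 2 + 12 * b) := by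
  have g2 : g 2 = 0 := by rw [hg]; norm_num
  have h1 := gsum (2 * a) (6 * b) (by omega) hb g g2
  rw [latsum (2 * a) (6 * b) hb g] at h1
  rw [n_hex, n_q1 _ _ hb, n_q2 _ _ hb, n_q3 _ _ hb, n_u1 a b hb, n_u1b a b hb, n_u1c a b hb,
    n_u2 a b hb, n_u2b a b hb, n_u2c a b hb, n_u3 a b hb, n_th] at h1
  have h2 := pair_sum (Arr (2 * a) (6 * b))
  have h3 : ∑ p ∈ Pts (Arr (2 * a) (6 * b)), g (cnt (Arr (2 * a) (6 * b)) p) =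
      ∑ p ∈ Pts (Arr (2 * a) (6 * b)), w (cnt (Arr (2 * a) (6 * b)) p) -
        w 2 / 2 * ∑ p ∈ Pts (Arr (2 * a) (6 * b)),
          (cnt (Arr (2 * a) (6 * b)) p : ℝ) * (cnt (Arr (2 * a) (6 * b)) p - 1) := by
    rw [Finset.mul_sum, ← Finset.sum_sub_distrib]
    refine Finset.sum_congr rfl fun p _ => ?_
    simp only [hg]; ring
  rw [h3, ← h2, card_Arr, Fin.sum_univ_six] at h1
  simp only [Rg, Matrix.cons_val_zero, Matrix.cons_val_one, Matrix.cons_val] at h1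
  push_cast at h1
  linarith

lemma cnt_small (A B : ℕ) (hB : 1 ≤ B) (p : PP) :
    cnt (Arr A B) p < 6 * A + 6 * B + 5 := by
  classical
  by_cases hz : p.rep 2 = 0
  · by_cases hex : ∃ t, dx t * p.rep 0 + dy t * p.rep 1 = 0
    · obtain ⟨t, ht⟩ := hex
      rw [cnt_inf A B p hz t ht]
      fin_cases t <;> simp [Rg] <;> omega
    · push Not at hex
      rw [cnt_inf0 A B p hz hex]
      omega
  · rw [cnt_fin _ _ _ hz]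
    refine lt_of_le_of_lt (Finset.sum_le_sum (g := fun _ => 1) fun t _ => ?_) ?_
    · split_ifs <;> omega
    · simp; omega

lemma slope_mem (a b : ℕ) (hb1 : 1 ≤ b) (hb : 6 * b ≤ 2 * a) :
    (21 * (2 * (a : ℝ)) ^ 2 + 48 * (2 * a) * (6 * b) + 17 * (6 * b) ^ 2 + 66 * a + 174 * b + (-13)) /
      (9 * (2 * a + 6 * b) ^ 2 + 24 * a + 72 * b + (-4)) ∈ Slopes := by
  refine ⟨Arr (2 * a) (6 * b), ?_, ?_, ?_, ?_⟩
  · rw [card_Arr]; omega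
  · rintro ⟨p, hp⟩
    have h1 : cnt (Arr (2 * a) (6 * b)) p = (Arr (2 * a) (6 * b)).card := hp
    have h2 := cnt_small (2 * a) (6 * b) (by omega) p
    rw [card_Arr] at h1
    omega
  · rintro ⟨p, hp⟩
    have h1 : cnt (Arr (2 * a) (6 * b)) p = (Arr (2 * a) (6 * b)).card - 1 := hp
    have h2 := cnt_small (2 * a) (6 * b) (by omega) p
    rw [card_Arr] at h1
    omega
  · rw [wsum (Arr (2 * a) (6 * b)) (fun k => 3 * (k : ℝ) - 4),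
      wsum (Arr (2 * a) (6 * b)) (fun k => (k : ℝ) - 1),
      wtot a b hb1 hb (fun k => 3 * (k : ℝ) - 4) _ (fun _ => rfl),
      wtot a b hb1 hb (fun k => (k : ℝ) - 1) _ (fun _ => rfl), card_Arr]
    push_cast
    congr 1 <;> ring

theorem main : Set.Icc (2 : ℝ) (73 / 30) ⊆ derivedSet Slopes := by
  intro r hr
  rcases le_or_gt r (12 / 5) with h | h
  · exact Pool.TH330.CS.main ⟨hr.1, h⟩
  · refine Pool.Agent.W2helper98.CS.p_lim Slopes 66 24 174 72 (-13) (-4) slope_mem ⟨?_, hr.2⟩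
    linarith

end Pool.Agent.W2helper92.CS
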